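import Pool.Agent.K7.H77.PF.Planar2

/-!
# Projections of planar sets: every nonprincipal character, almost all directions, all dense subsets

Let `P` be a set of points of the affine plane over the field with `p` elements, `|P| > p^δ`, with at
most `|P|^(1-c)` points on each line (for instance the points `(a², a)` or `(a, 1/a)`, `a ∈ A`, for
an ARBITRARY set `A` with more than `p^δ` elements).  For EVERY nonprincipal character `χ` modulo
`p`, all directions `t` with at most `p^(1/2+ε)` exceptions have the following properties: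

* all bilinear forms with the kernel `χ (π u - π v)`, `u, v ∈ P`, `π (x, y) = x + t y`, have a
  power saving;
* all subsets `A` of the projection `π (P)` with `|π (P)| ≤ p^τ |A|` satisfy
  `|∑_{a, b ∈ A} χ (a - b)| < |A|^(2-τ)`.

The same is true for all pairs `(t, χ)` with at most `p^(1+ε)` exceptions.

Outline: the trace of `(K K*)^n`, `K` the matrix of the kernel, is a sum over closed walks in `P`.
If some edge of the walk is not horizontal and not parallel to any other edge then the sum over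
`t` is `O(√p)` by Weil's bound.  In the other walks at least half of the edges are horizontal or
parallel to earlier edges, and there are at most `C |P|^(2n) |P|^(1-cn)` such walks.
-/

set_option autoImplicit false

namespace Pool.Agent.Results.MP_cb27ba_nt.AlmostAllProjections

open Finset

open scoped Classical in
/-- the projection of `P` in the direction `t` -/
noncomputable def proj {p : ℕ} (P : Finset (ZMod p × ZMod p)) (t : ZMod p) : Finset (ZMod p) :=
  P.image fun u => u.1 + t * u.2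

/-- A bilinear form with the kernel `χ (π u - π v)`, `u, v ∈ P`, is large, or a dense subset of the
projection of `P` has a large difference sum. -/
def Exceptional {p : ℕ} (τ : ℝ) (P : Finset (ZMod p × ZMod p)) (χ : DirichletCharacter ℂ p)
    (t : ZMod p) : Prop :=
  (∃ f g : ZMod p × ZMod p → ℂ,
    (p : ℝ) ^ (-τ) * P.card * (Real.sqrt (∑ u ∈ P, ‖f u‖ ^ 2) * Real.sqrt (∑ u ∈ P, ‖g u‖ ^ 2)) <
      ‖∑ u ∈ P, ∑ v ∈ P, f u * g v * χ ((u.1 + t * u.2) - (v.1 + t * v.2))‖) ∨
  (∃ A ⊆ proj P t, ((proj P t).card : ℝ) ≤ (p : ℝ) ^ τ * A.card ∧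
    (A.card : ℝ) ^ (2 - τ) ≤ ‖∑ a ∈ A, ∑ b ∈ A, χ (a - b)‖)

theorem result :
    ∀ δ c ε : ℝ, 0 < δ → 0 < c → 0 < ε →
      ∃ τ : ℝ, 0 < τ ∧ ∃ p₀ : ℕ, ∀ p : ℕ, p.Prime → p₀ ≤ p →
        ∀ P : Finset (ZMod p × ZMod p), (p : ℝ) ^ δ < (P.card : ℝ) →
          (∀ α β γ : ZMod p, (α ≠ 0 ∨ β ≠ 0) →
            ((P.filter (fun z => α * z.1 + β * z.2 = γ)).card : ℝ) ≤ (P.card : ℝ) ^ (1 - c)) →
          (∀ χ : DirichletCharacter ℂ p, χ ≠ 1 →
            ({t : ZMod p | Exceptional τ P χ t}.ncard : ℝ) ≤ (p : ℝ) ^ (1 / 2 + ε)) ∧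
          ({q : ZMod p × DirichletCharacter ℂ p | Exceptional τ P q.2 q.1}.ncard : ℝ) ≤
            (p : ℝ) ^ (1 + ε) := by
  intro δ c ε hδ hc hε
  obtain ⟨τ, hτ, p₀, h⟩ := Pool.Agent.K7.H77.PF.planar2 δ c ε hδ hc hε
  refine ⟨τ, hτ, p₀, fun p hp hp₀ P hP hl => ?_⟩
  have : Fact p.Prime := ⟨hp⟩
  obtain ⟨h1, h2⟩ := h p hp₀ P hP hl
  have him : ∀ t : ZMod p, Pool.Agent.K7.H77.PF.imG (Pool.Agent.K7.H77.PF.lin P) t = proj P t := by
    intro t
    ext a
    unfold Pool.Agent.K7.H77.PF.imG proj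
    rw [mem_image, mem_image]
    constructor
    · rintro ⟨u, -, hu⟩
      exact ⟨u.1, u.2, by rw [← hu, Pool.Agent.K7.H77.PF.lin_eval]⟩
    · rintro ⟨u, hu, hu'⟩
      exact ⟨⟨u, hu⟩, mem_univ _, by rw [← hu', Pool.Agent.K7.H77.PF.lin_eval]⟩
  have key : ∀ (χ : DirichletCharacter ℂ p) (t : ZMod p), Exceptional τ P χ t →
      Pool.Agent.K7.H77.PF.Exc τ χ (Pool.Agent.K7.H77.PF.lin P) t := by
    rintro χ t (⟨f, g, hfg⟩ | ⟨A, hA, hA1, hA2⟩)
    · left
      refine ⟨fun u => f u.1, fun u => g u.1, ?_⟩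
      rw [Fintype.card_coe]
      have e1 : ∀ F : ZMod p × ZMod p → ℝ, ∑ u : {u // u ∈ P}, F u.1 = ∑ u ∈ P, F u :=
        fun F => sum_coe_sort P F
      have e2 : ∀ F : ZMod p × ZMod p → ℂ, ∑ u : {u // u ∈ P}, F u.1 = ∑ u ∈ P, F u :=
        fun F => sum_coe_sort P F
      rw [e1 (fun u => ‖f u‖ ^ 2), e1 (fun u => ‖g u‖ ^ 2)]
      have e3 : ∑ i : {u // u ∈ P}, ∑ j : {u // u ∈ P}, f i.1 * g j.1 *
          χ ((Pool.Agent.K7.H77.PF.lin P i).eval t - (Pool.Agent.K7.H77.PF.lin P j).eval t) =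
          ∑ u ∈ P, ∑ v ∈ P, f u * g v * χ ((u.1 + t * u.2) - (v.1 + t * v.2)) := by
        rw [← e2 (fun u => ∑ v ∈ P, f u * g v * χ ((u.1 + t * u.2) - (v.1 + t * v.2)))]
        refine sum_congr rfl fun i _ => ?_
        rw [← e2 (fun v => f i.1 * g v * χ ((i.1.1 + t * i.1.2) - (v.1 + t * v.2)))]
        refine sum_congr rfl fun j _ => ?_
        rw [Pool.Agent.K7.H77.PF.lin_eval, Pool.Agent.K7.H77.PF.lin_eval]
      rw [e3]
      exact hfg
    · right
      rw [him]
      exact ⟨A, hA, hA1, hA2⟩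
  constructor
  · intro χ hχ
    refine le_trans ?_ (h1 χ hχ)
    exact_mod_cast Set.ncard_le_ncard (fun t ht => key χ t ht) (Set.toFinite _)
  · refine le_trans ?_ h2
    exact_mod_cast Set.ncard_le_ncard
      (fun (q : ZMod p × DirichletCharacter ℂ p) hq => key q.2 q.1 hq) (Set.toFinite _)

end Pool.Agent.Results.MP_cb27ba_nt.AlmostAllProjections
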