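import Pool.Agent.K7.H77.PF.Mono4

/-!
# The sets `{a t^i : (a, i) ∈ P}`, for example subsets of geometric progressions

Let `P` be a set of more than `p^δ` pairs `(a, i)` of a residue `a ≠ 0` modulo the prime `p` and an
exponent `0 ≤ i ≤ p^ν`, in which each exponent occurs at most `|P|^(1-c)` times.  For EVERY
nonprincipal character `χ` modulo `p`, all `t` with at most `p^(1/2+ν+ε)` exceptions have the
following properties:

* all bilinear forms with the kernel `χ (a t^i - b t^j)`, `(a, i), (b, j) ∈ P`, have a power saving;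
* all subsets `B` of `{a t^i : (a, i) ∈ P}` with `|{a t^i}| ≤ p^τ |B|` satisfy
  `|∑_{a, b ∈ B} χ (a - b)| < |B|^(2-τ)`.

The same is true for all pairs `(t, χ)` with at most `p^(1+ν+ε)` exceptions.  For `P = {1} × I` (and
`c = 1`) these are the subsets `{t^i : i ∈ I}` of the geometric progression `1, t, t², ...` of length
`p^ν`, where `I ⊆ [0, p^ν]` is any set of more than `p^δ` exponents.  If only one exponent occurs the
sets are dilates of a fixed set, the statement would be the open problem itself.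

Outline: the trace of `(K K*)^n`, `K` the matrix of the kernel, is a sum over closed walks in `P`.  For
an edge of the walk with different exponents and `d = |i - j|` the roots of `a X^i - b X^j` are `0` and
the `d` solutions of `w^d = c`, which are simple.  If one of them is not a root of another edge, Weil's
bound can be applied.  Otherwise one of the other edges, with `d'` in place of `d`, has at least `d / m`
of the roots, hence `d / gcd (d, d') ≤ m`, `m = 2 n`.  This defines a map of the set of the edges to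
itself.  Along the map `d` divides a bounded multiple of `d'`.  So if the map has few periodic points
all the `d` are divisors of bounded multiples of few numbers, and there are few such walks by the
divisor bound; and if it has many periodic points the numbers `(d, c)` of many edges are determined
up to `O(1)` possibilities by those of other edges.
-/

set_option autoImplicit false

namespace Pool.Agent.Results.MP_cb27ba_nt.MonomialFamilies

open Finset

open scoped Classical in
/-- the set of all `a t^i` with `(a, i) ∈ P` -/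
noncomputable def img {p : ℕ} (P : Finset (ZMod p × ℕ)) (t : ZMod p) : Finset (ZMod p) :=
  P.image fun u => u.1 * t ^ u.2

/-- A bilinear form with the kernel `χ (a t^i - b t^j)`, `(a, i), (b, j) ∈ P`, is large, or a dense
subset of `{a t^i : (a, i) ∈ P}` has a large difference sum. -/
def Exceptional {p : ℕ} (τ : ℝ) (P : Finset (ZMod p × ℕ)) (χ : DirichletCharacter ℂ p)
    (t : ZMod p) : Prop :=
  (∃ x y : ZMod p × ℕ → ℂ,
    (p : ℝ) ^ (-τ) * P.card * (Real.sqrt (∑ u ∈ P, ‖x u‖ ^ 2) * Real.sqrt (∑ u ∈ P, ‖y u‖ ^ 2)) <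
      ‖∑ u ∈ P, ∑ v ∈ P, x u * y v * χ (u.1 * t ^ u.2 - v.1 * t ^ v.2)‖) ∨
  (∃ B ⊆ img P t, ((img P t).card : ℝ) ≤ (p : ℝ) ^ τ * B.card ∧
    (B.card : ℝ) ^ (2 - τ) ≤ ‖∑ a ∈ B, ∑ b ∈ B, χ (a - b)‖)

open Pool.Agent.K7.H77.PF in
theorem result :
    ∀ (δ c ε ν : ℝ), 0 < δ → 0 < c → 0 < ε → 0 ≤ ν → ν < 1 →
      ∃ τ : ℝ, 0 < τ ∧ ∃ p₀ : ℕ, ∀ p : ℕ, p.Prime → p₀ ≤ p →
        ∀ P : Finset (ZMod p × ℕ), (p : ℝ) ^ δ < (P.card : ℝ) →
          (∀ u ∈ P, u.1 ≠ 0 ∧ (u.2 : ℝ) ≤ (p : ℝ) ^ ν) →
          (∀ i : ℕ, ((P.filter fun u => u.2 = i).card : ℝ) ≤ (P.card : ℝ) ^ (1 - c)) →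
          (∀ χ : DirichletCharacter ℂ p, χ ≠ 1 →
            ({t : ZMod p | Exceptional τ P χ t}.ncard : ℝ) ≤ (p : ℝ) ^ (1 / 2 + ν + ε)) ∧
          ({q : ZMod p × DirichletCharacter ℂ p | Exceptional τ P q.2 q.1}.ncard : ℝ) ≤
            (p : ℝ) ^ (1 + ν + ε) := by
  classical
  intro δ c ε ν hδ hc hε hν hν1
  obtain ⟨n, hn, C, hC, p₁, h1⟩ := mono_main δ c ν hδ hc hν hν1
  obtain ⟨τ, hτ, p₂, h2⟩ := absfam ν ε hν hε n hn C hC
  refine ⟨τ, hτ, max p₁ p₂, fun p hp hpp P hPδ hP hPc => ?_⟩
  have : Fact p.Prime := ⟨hp⟩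
  have hp0 : (0 : ℝ) < p := by exact_mod_cast hp.pos
  set a : {u // u ∈ P} → ZMod p := fun u => u.1.1 with ha
  set e : {u // u ∈ P} → ℕ := fun u => u.1.2 with he
  have hcard : Fintype.card {u // u ∈ P} = P.card := Fintype.card_coe P
  have ha0 : ∀ i, a i ≠ 0 := fun i => (hP i.1 i.2).1
  have hinj : ∀ i j, a i = a j → e i = e j → i = j :=
    fun i j h3 h4 => Subtype.ext (Prod.ext h3 h4)
  have heν : ∀ i, (e i : ℝ) ≤ (p : ℝ) ^ ν := fun i => (hP i.1 i.2).2
  have hfib : ∀ t : ℕ, ((univ.filter fun j => e j = t).card : ℝ) ≤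
      (Fintype.card {u // u ∈ P} : ℝ) ^ (1 - c) := by
    intro t
    rw [hcard]
    refine le_trans ?_ (hPc t)
    have : (univ.filter fun j => e j = t).card ≤ (P.filter fun u => u.2 = t).card := by
      refine card_le_card_of_injOn (fun u => u.1) ?_ ?_
      · intro u hu
        exact mem_coe.2 (mem_filter.2 ⟨u.2, (mem_filter.1 (mem_coe.1 hu)).2⟩)
      · intro u _ v _ huv
        exact Subtype.ext huv
    exact_mod_cast this
  have hpos : 0 < Fintype.card {u // u ∈ P} := by
    rw [hcard]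
    have h3 : (0 : ℝ) < P.card := lt_trans (by positivity) hPδ
    exact_mod_cast h3
  have h3 := h1 p ((le_max_left _ _).trans hpp) {u // u ∈ P} a e ha0 hinj heν
    (by rw [hcard]; exact hPδ) hfib
  have hdeg : ∀ i, (mono a e i).natDegree ≤ ⌊(p : ℝ) ^ ν⌋₊ := by
    intro i
    refine le_trans ?_ (Nat.le_floor (heν i))
    unfold mono
    exact Polynomial.natDegree_C_mul_X_pow_le _ _
  have hGinj : Function.Injective (mono a e) := by
    intro i j hij
    unfold mono at hij
    have h4 : e i = e j := by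
      rw [← Polynomial.natDegree_C_mul_X_pow (e i) (a i) (ha0 i),
        ← Polynomial.natDegree_C_mul_X_pow (e j) (a j) (ha0 j), hij]
    refine hinj i j ?_ h4
    rw [← Polynomial.leadingCoeff_C_mul_X_pow (a i) (e i),
      ← Polynomial.leadingCoeff_C_mul_X_pow (a j) (e j), hij]
  obtain ⟨h4, h5⟩ := h2 p ((le_max_right _ _).trans hpp) {u // u ∈ P} (mono a e)
    ⌊(p : ℝ) ^ ν⌋₊ hdeg (Nat.floor_le (by positivity)) hpos h3 hGinj
  have hval : ∀ (i : {u // u ∈ P}) (t : ZMod p), (mono a e i).eval t = i.1.1 * t ^ i.1.2 := by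
    intro i t
    unfold mono
    simp [ha, he]
  have him : ∀ t : ZMod p, imG (mono a e) t = img P t := by
    intro t
    ext z
    unfold imG img
    rw [mem_image, mem_image]
    constructor
    · rintro ⟨u, -, hu⟩
      exact ⟨u.1, u.2, by rw [← hval]; exact hu⟩
    · rintro ⟨u, hu, hu'⟩
      exact ⟨⟨u, hu⟩, mem_univ _, by rw [hval]; exact hu'⟩
  have key : ∀ (χ : DirichletCharacter ℂ p) (t : ZMod p), Exceptional τ P χ t →
      Exc τ χ (mono a e) t := by
    rintro χ t (⟨x, y, hxy⟩ | ⟨B, hB, hB1, hB2⟩)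
    · left
      refine ⟨fun u => x u.1, fun u => y u.1, ?_⟩
      rw [Fintype.card_coe]
      have e1 : ∀ H : ZMod p × ℕ → ℝ, ∑ u : {u // u ∈ P}, H u.1 = ∑ u ∈ P, H u :=
        fun H => sum_coe_sort P H
      have e2 : ∀ H : ZMod p × ℕ → ℂ, ∑ u : {u // u ∈ P}, H u.1 = ∑ u ∈ P, H u :=
        fun H => sum_coe_sort P H
      rw [e1 (fun u => ‖x u‖ ^ 2), e1 (fun u => ‖y u‖ ^ 2)]
      have e3 : ∑ i : {u // u ∈ P}, ∑ j : {u // u ∈ P}, x i.1 * y j.1 *
          χ ((mono a e i).eval t - (mono a e j).eval t) =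
          ∑ u ∈ P, ∑ v ∈ P, x u * y v * χ (u.1 * t ^ u.2 - v.1 * t ^ v.2) := by
        rw [← e2 (fun u => ∑ v ∈ P, x u * y v * χ (u.1 * t ^ u.2 - v.1 * t ^ v.2))]
        refine sum_congr rfl fun i _ => ?_
        rw [← e2 (fun v => x i.1 * y v * χ (i.1.1 * t ^ i.1.2 - v.1 * t ^ v.2))]
        refine sum_congr rfl fun j _ => ?_
        rw [hval, hval]
      rw [e3]
      exact hxy
    · right
      rw [him]
      exact ⟨B, hB, hB1, hB2⟩
  constructor
  · intro χ hχ
    refine le_trans ?_ (h4 χ hχ)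
    exact_mod_cast Set.ncard_le_ncard (fun t ht => key χ t ht) (Set.toFinite _)
  · refine le_trans ?_ h5
    exact_mod_cast Set.ncard_le_ncard
      (fun (q : ZMod p × DirichletCharacter ℂ p) hq => key q.2 q.1 hq) (Set.toFinite _)

end Pool.Agent.Results.MP_cb27ba_nt.MonomialFamilies
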