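import Pool.Agent.K7.H77.PF.Dich3

/-!
# The sets `F (A, t)` for an arbitrary set `A` and a polynomial `F` in two variables

Let `A` be an ARBITRARY set of residues modulo the prime `p` with more than `p^δ` elements and let
`F (x, t)` be a polynomial of degree at most `D` in `x` and in `t` that is not of the form
`f (x) u (t) + v (t)` (`D` is fixed and `p` is large).  For EVERY nonprincipal character `χ`
modulo `p`, all `t` with at most `p^(1/2+ε)` exceptions have the following properties:

* all bilinear forms with the kernel `χ (F (a, t) - F (b, t))`, `a, b ∈ A`, have a power saving;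
* all subsets `B` of `F (A, t)` with `|F (A, t)| ≤ p^τ |B|` satisfy
  `|∑_{a, b ∈ B} χ (a - b)| < |B|^(2-τ)`.

The same is true for all pairs `(t, χ)` with at most `p^(1+ε)` exceptions.  For
`F (x, t) = f (x) u (t) + v (t)` the sets `F (A, t)` are affine copies of `f (A)`, the statement for
them would be the open problem itself.

Outline: the trace of `(K K*)^n`, `K` the matrix of the kernel, is a sum over closed walks in `A`.
Write `F (x, t) = c₀ (t) + g (t) ∑ c_i (t) x^i` with `c_i` without a common root.  If a simple root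
of the polynomial `F (a, X) - F (b, X)` of some edge `(a, b)` of the walk is not a root of `g` and
not a root of the polynomial of another edge then the sum over `t` is `O(√p)` by Weil's bound.
It has to be shown that for all `a` with `O(1)` exceptions there is such a simple root for all `b`
with `O(1)` exceptions: if the polynomial `(F (y, T) - F (a, T)) / g (T)` over `F_p (y)` has a
multiple root `θ` then `θ` is transcendental over `F_p` and is a root of `∂F/∂y (y, T) / g (T)`
(differentiate with respect to `y`); this polynomial does not depend on `a`, and different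
polynomials `F (a, T)` give different `θ`.
-/

set_option autoImplicit false

namespace Pool.Agent.Results.MP_cb27ba_nt.PolynomialFamilies

open Finset

/-- the value `F (a, t)` of `F (x, t) = ∑ F_i (t) x^i` -/
noncomputable def val {p : ℕ} (F : Polynomial (Polynomial (ZMod p))) (a t : ZMod p) : ZMod p :=
  (F.eval (Polynomial.C a)).eval t

open scoped Classical in
/-- the set `F (A, t)` -/
noncomputable def img {p : ℕ} (F : Polynomial (Polynomial (ZMod p))) (A : Finset (ZMod p))
    (t : ZMod p) : Finset (ZMod p) :=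
  A.image fun a => val F a t

/-- A bilinear form with the kernel `χ (F (a, t) - F (b, t))`, `a, b ∈ A`, is large, or a dense
subset of `F (A, t)` has a large difference sum. -/
def Exceptional {p : ℕ} (τ : ℝ) (F : Polynomial (Polynomial (ZMod p))) (A : Finset (ZMod p))
    (χ : DirichletCharacter ℂ p) (t : ZMod p) : Prop :=
  (∃ x y : ZMod p → ℂ,
    (p : ℝ) ^ (-τ) * A.card * (Real.sqrt (∑ a ∈ A, ‖x a‖ ^ 2) * Real.sqrt (∑ a ∈ A, ‖y a‖ ^ 2)) <
      ‖∑ a ∈ A, ∑ b ∈ A, x a * y b * χ (val F a t - val F b t)‖) ∨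
  (∃ B ⊆ img F A t, ((img F A t).card : ℝ) ≤ (p : ℝ) ^ τ * B.card ∧
    (B.card : ℝ) ^ (2 - τ) ≤ ‖∑ a ∈ B, ∑ b ∈ B, χ (a - b)‖)

theorem result :
    ∀ (δ ε : ℝ) (D : ℕ), 0 < δ → 0 < ε →
      ∃ τ : ℝ, 0 < τ ∧ ∃ p₀ : ℕ, ∀ p : ℕ, p.Prime → p₀ ≤ p →
        ∀ (A : Finset (ZMod p)) (F : Polynomial (Polynomial (ZMod p))),
          (p : ℝ) ^ δ < (A.card : ℝ) →
          F.natDegree ≤ D → (∀ i, (F.coeff i).natDegree ≤ D) →
          (¬ ∃ f u v : Polynomial (ZMod p),
            F = f.map Polynomial.C * Polynomial.C u + Polynomial.C v) →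
          (∀ χ : DirichletCharacter ℂ p, χ ≠ 1 →
            ({t : ZMod p | Exceptional τ F A χ t}.ncard : ℝ) ≤ (p : ℝ) ^ (1 / 2 + ε)) ∧
          ({q : ZMod p × DirichletCharacter ℂ p | Exceptional τ F A q.2 q.1}.ncard : ℝ) ≤
            (p : ℝ) ^ (1 + ε) := by
  intro δ ε D hδ hε
  obtain ⟨τ, hτ, p₀, h⟩ := Pool.Agent.K7.H77.PF.dich δ ε hδ hε D
  refine ⟨τ, hτ, p₀, fun p hp hp₀ A F hA hF hFc hnd => ?_⟩
  have : Fact p.Prime := ⟨hp⟩
  obtain ⟨h1, h2⟩ := h p hp₀ A F hA hF hFc hnd
  have him : ∀ t : ZMod p, Pool.Agent.K7.H77.PF.imG (Pool.Agent.K7.H77.PF.fam F A) t =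
      img F A t := by
    intro t
    ext a
    unfold Pool.Agent.K7.H77.PF.imG img
    rw [mem_image, mem_image]
    constructor
    · rintro ⟨u, -, hu⟩
      exact ⟨u.1, u.2, hu⟩
    · rintro ⟨u, hu, hu'⟩
      exact ⟨⟨u, hu⟩, mem_univ _, hu'⟩
  have key : ∀ (χ : DirichletCharacter ℂ p) (t : ZMod p), Exceptional τ F A χ t →
      Pool.Agent.K7.H77.PF.Exc τ χ (Pool.Agent.K7.H77.PF.fam F A) t := by
    rintro χ t (⟨x, y, hxy⟩ | ⟨B, hB, hB1, hB2⟩)
    · left
      refine ⟨fun a => x a.1, fun a => y a.1, ?_⟩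
      rw [Fintype.card_coe]
      have e1 : ∀ H : ZMod p → ℝ, ∑ u : {u // u ∈ A}, H u.1 = ∑ u ∈ A, H u :=
        fun H => sum_coe_sort A H
      have e2 : ∀ H : ZMod p → ℂ, ∑ u : {u // u ∈ A}, H u.1 = ∑ u ∈ A, H u :=
        fun H => sum_coe_sort A H
      rw [e1 (fun u => ‖x u‖ ^ 2), e1 (fun u => ‖y u‖ ^ 2)]
      have e3 : ∑ i : {u // u ∈ A}, ∑ j : {u // u ∈ A}, x i.1 * y j.1 *
          χ ((Pool.Agent.K7.H77.PF.fam F A i).eval t -
            (Pool.Agent.K7.H77.PF.fam F A j).eval t) =
          ∑ a ∈ A, ∑ b ∈ A, x a * y b * χ (val F a t - val F b t) := by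
        rw [← e2 (fun a => ∑ b ∈ A, x a * y b * χ (val F a t - val F b t))]
        refine sum_congr rfl fun i _ => ?_
        rw [← e2 (fun b => x i.1 * y b * χ (val F i.1 t - val F b t))]
        rfl
      rw [e3]
      exact hxy
    · right
      rw [him]
      exact ⟨B, hB, hB1, hB2⟩
  constructor
  · intro χ hχ
    refine le_trans ?_ (h1 χ hχ)
    exact_mod_cast Set.ncard_le_ncard (fun t ht => key χ t ht) (Set.toFinite _)
  · refine le_trans ?_ h2
    exact_mod_cast Set.ncard_le_ncard
      (fun (q : ZMod p × DirichletCharacter ℂ p) hq => key q.2 q.1 hq) (Set.toFinite _)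

end Pool.Agent.Results.MP_cb27ba_nt.PolynomialFamilies
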