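import Pool.Agent.Results.MP_cb27ba_nt.InitialSegments
import Pool.Agent.R482.ST.Star

/-!
# The initial segments of arbitrary sets modulo all primes near the values of powers, orbits and other sequences

Let `f_n`, `n = 0, 1, 2, …`, be positive functions on `(a, ∞)`, `a ≥ 0`, such that `f_n(t) / t` is nondecreasing, and such
that the sequence `f_n(t)` has exponent of convergence at most `ρ` for each `t > a`: for instance `f_n(t) = t ^ n` (`ρ = 0`),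
the orbits `f_n(t) = g (g (⋯ g (t)))` of a map `g` with `g(t) > t` and `g(t) / t` nondecreasing (`ρ = 0`), and
`f_n(t) = v_n t`. Let `𝒜_0, 𝒜_1, …` be arbitrary sets of nonnegative integers, and `𝒜_i(p)` the set of the elements of `𝒜_i`
below `p`. For every `δ > 0` there is `τ > 0` such that for all `α > a` outside a set of Hausdorff dimension at most
`(1 - τ + ρ) / (1 - θ)`, for all `i` and all but finitely many `n`, for EVERY prime `p` with `|p - f_n(α)| ≤ c f_n(α) ^ θ` and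
`|𝒜_i(p)| ≥ p ^ δ`, the set `𝒜_i(p)` and all its subsets `A` with at least `|𝒜_i(p)| ^ (1 - τ)` elements satisfy
`|∑_{a, b ∈ A} (a - b | p)| < |A| ^ (2 - τ)`.
-/

set_option autoImplicit false

namespace Pool.Agent.Results.MP_cb27ba_nt.PrimesInWindows

open Pool.Agent.Results.MP_cb27ba_nt.InitialSegments (seg S)

/-- the functions `f n` are positive on `(a, ∞)`, `a ≥ 0`, and `f n x / x` is nondecreasing there -/
def Starshaped (a : ℝ) (f : ℕ → ℝ → ℝ) : Prop :=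
  0 ≤ a ∧ ∀ n : ℕ, ∀ x y : ℝ, a < x → x ≤ y → 0 < f n x ∧ f n x / x ≤ f n y / y

/-- for each `x > a` the exponent of convergence of the sequence `f n x` is at most `τ` -/
def ExpLe (a : ℝ) (f : ℕ → ℝ → ℝ) (τ : ℝ) : Prop :=
  ∀ x : ℝ, a < x → ∀ t : ℝ, τ < t → Summable (fun n : ℕ => (f n x) ^ (-t))

/-- the bad primes of a set -/
def Bad (δ τ : ℝ) (𝒜 : Set ℕ) : Set ℕ :=
  {p | p.Prime ∧ (p : ℝ) ^ δ ≤ (seg 𝒜 p).card ∧ ∃ A ⊆ seg 𝒜 p,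
      ((seg 𝒜 p).card : ℝ) ^ (1 - τ) ≤ A.card ∧ (A.card : ℝ) ^ (2 - τ) ≤ |S p A|}

theorem bad_mono {δ τ τ' : ℝ} (hδ : 0 < δ) (h : τ' ≤ τ) (𝒜 : Set ℕ) : Bad δ τ' 𝒜 ⊆ Bad δ τ 𝒜 := by
  rintro p ⟨hp, h1, A, hA, h2, h3⟩
  have hp1 : (1 : ℝ) ≤ p := by exact_mod_cast hp.one_lt.le
  have h4 : (1 : ℝ) ≤ ((seg 𝒜 p).card : ℝ) := (Real.one_le_rpow hp1 hδ.le).trans h1
  have h5 : ((seg 𝒜 p).card : ℝ) ^ (1 - τ) ≤ A.card :=
    (Real.rpow_le_rpow_of_exponent_le h4 (by linarith)).trans h2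
  have h6 : (1 : ℝ) ≤ (A.card : ℝ) := by
    have h7 : (0 : ℝ) < (A.card : ℝ) := lt_of_lt_of_le (by positivity) h5
    have h8 : 0 < A.card := by exact_mod_cast h7
    exact_mod_cast h8
  exact ⟨hp, h1, A, hA, h5, (Real.rpow_le_rpow_of_exponent_le h6 (by linarith)).trans h3⟩

/-- **Theorem.** For every `δ > 0` there is `τ` with `0 < τ ≤ 1` such that the following holds.

(1) Let `f` be starshaped functions on `(a, ∞)` of exponent of convergence at most `ρ ≥ 0`, `θ < 1`, and `𝒜 0, 𝒜 1, …` sets of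
nonnegative integers. There is a set `E` of Hausdorff dimension at most `(1 - τ + ρ) / (1 - θ)` such that for each `α > a` outside
`E`, all `i` and `c`, for all but finitely many `n` and EVERY prime `p` with `|p - f_n(α)| ≤ c f_n(α) ^ θ` for which the set
`𝒜_i(p)` of the elements of `𝒜 i` below `p` has at least `p ^ δ` elements, each subset `A` of `𝒜_i(p)` with at least
`|𝒜_i(p)| ^ (1 - τ)` elements satisfies `|∑_{a, b ∈ A} (a - b | p)| < |A| ^ (2 - τ)`.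

(2) If `ρ = 0` there is a null set `E` with this property for all `θ < τ`.

(3) The functions `v_n x`, `v_n > 0`, are starshaped on `(0, ∞)`, of exponent `ρ` if `v` has exponent of convergence at most
`ρ`; the functions `x ^ (v_n)`, `v_n ≥ 1`, are starshaped on `(1, ∞)`, of exponent `0` if the sums of `exp (-t v_n)` converge
for `t > 0`; and the iterates of a map `g` with `g(x) > x` for `x > a` and `g(x) / x` nondecreasing are starshaped on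
`(a, ∞)`, of exponent `0`. -/
theorem result : ∀ δ : ℝ, 0 < δ → ∃ τ : ℝ, (0 < τ ∧ τ ≤ 1) ∧
    (∀ (a : ℝ) (f : ℕ → ℝ → ℝ) (ρ θ : ℝ) (𝒜 : ℕ → Set ℕ), Starshaped a f → 0 ≤ ρ → ExpLe a f ρ → θ < 1 →
      ∃ E : Set ℝ, dimH E ≤ ENNReal.ofReal ((1 - τ + ρ) / (1 - θ)) ∧
        ∀ α : ℝ, a < α → α ∉ E → ∀ (i : ℕ) (c : ℝ), ∃ n₀ : ℕ, ∀ n : ℕ, n₀ ≤ n → ∀ p : ℕ, p.Prime →
          |(p : ℝ) - f n α| ≤ c * (f n α) ^ θ → (p : ℝ) ^ δ ≤ (seg (𝒜 i) p).card →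
            ∀ A ⊆ seg (𝒜 i) p, ((seg (𝒜 i) p).card : ℝ) ^ (1 - τ) ≤ A.card →
              |S p A| < (A.card : ℝ) ^ (2 - τ)) ∧
    (∀ (a : ℝ) (f : ℕ → ℝ → ℝ) (𝒜 : ℕ → Set ℕ), Starshaped a f → ExpLe a f 0 →
      ∃ E : Set ℝ, MeasureTheory.volume E = 0 ∧
        ∀ α : ℝ, a < α → α ∉ E → ∀ (i : ℕ) (c θ : ℝ), θ < τ → ∃ n₀ : ℕ, ∀ n : ℕ, n₀ ≤ n → ∀ p : ℕ, p.Prime →
          |(p : ℝ) - f n α| ≤ c * (f n α) ^ θ → (p : ℝ) ^ δ ≤ (seg (𝒜 i) p).card →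
            ∀ A ⊆ seg (𝒜 i) p, ((seg (𝒜 i) p).card : ℝ) ^ (1 - τ) ≤ A.card →
              |S p A| < (A.card : ℝ) ^ (2 - τ)) ∧
    (∀ (v : ℕ → ℝ) (τ : ℝ), (∀ n, 0 < v n) → (∀ t : ℝ, τ < t → Summable (fun n : ℕ => (v n) ^ (-t))) →
      Starshaped 0 (fun n x => v n * x) ∧ ExpLe 0 (fun n x => v n * x) τ) ∧
    (∀ v : ℕ → ℝ, (∀ n, 1 ≤ v n) → (∀ t : ℝ, 0 < t → Summable fun n : ℕ => Real.exp (-(t * v n))) →
      Starshaped 1 (fun n x => x ^ (v n)) ∧ ExpLe 1 (fun n x => x ^ (v n)) 0) ∧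
    (∀ (a : ℝ) (g : ℝ → ℝ), 0 ≤ a → (∀ x y : ℝ, a < x → x ≤ y → g x / x ≤ g y / y) → (∀ x : ℝ, a < x → x < g x) →
      Starshaped a (fun n x => g^[n] x) ∧ ExpLe a (fun n x => g^[n] x) 0) := by
  intro δ hδ
  obtain ⟨τ₀, hτ₀, Q₀, hQ⟩ := InitialSegments.result δ hδ
  set τ : ℝ := min τ₀ 1 with hτ
  have hτ0 : 0 < τ := lt_min hτ₀ one_pos
  have hτ1 : τ ≤ 1 := min_le_right _ _
  have hττ : τ ≤ τ₀ := min_le_left _ _
  -- the count of the bad primes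
  have hcount : ∀ 𝒜 : Set ℕ, ∀ ε : ℝ, 0 < ε → ∃ C : ℝ, ∀ T : ℝ, 1 ≤ T →
      {p | p ∈ Bad δ τ 𝒜 ∧ (p : ℝ) ≤ T}.Finite ∧
      (({p | p ∈ Bad δ τ 𝒜 ∧ (p : ℝ) ≤ T}.ncard : ℕ) : ℝ) ≤ C * T ^ ((1 - τ) + ε) := by
    intro 𝒜 ε hε
    refine ⟨(Q₀ : ℝ) + 1, fun T hT => ?_⟩
    have hT0 : (0 : ℝ) < T := by linarith
    have hfin : {p | p ∈ Bad δ τ 𝒜 ∧ (p : ℝ) ≤ T}.Finite :=
      (Set.finite_Iic ⌊T⌋₊).subset fun p hp => Nat.le_floor hp.2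
    refine ⟨hfin, ?_⟩
    have hTp : 1 ≤ T ^ ((1 - τ) + ε) := Real.one_le_rpow hT (by linarith)
    rcases le_or_gt Q₀ ⌊T⌋₊ with h | h
    · have h1 := hQ ⌊T⌋₊ h 𝒜
      have h2 : (({p | p ∈ Bad δ τ 𝒜 ∧ (p : ℝ) ≤ T}.ncard : ℕ) : ℝ) ≤ ((⌊T⌋₊ : ℕ) : ℝ) ^ (1 - τ₀) := by
        refine le_trans ?_ h1
        have hsub : {p | p ∈ Bad δ τ 𝒜 ∧ (p : ℝ) ≤ T} ⊆ {p : ℕ | p.Prime ∧ p ≤ ⌊T⌋₊ ∧
            (p : ℝ) ^ δ ≤ (seg 𝒜 p).card ∧ ∃ A ⊆ seg 𝒜 p,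
            ((seg 𝒜 p).card : ℝ) ^ (1 - τ₀) ≤ A.card ∧ (A.card : ℝ) ^ (2 - τ₀) ≤ |S p A|} := by
          rintro p ⟨hp, hpT⟩
          obtain ⟨g1, g2, g3⟩ := bad_mono hδ hττ 𝒜 hp
          exact ⟨g1, Nat.le_floor hpT, g2, g3⟩
        have hfin2 : {p : ℕ | p.Prime ∧ p ≤ ⌊T⌋₊ ∧
            (p : ℝ) ^ δ ≤ (seg 𝒜 p).card ∧ ∃ A ⊆ seg 𝒜 p,
            ((seg 𝒜 p).card : ℝ) ^ (1 - τ₀) ≤ A.card ∧ (A.card : ℝ) ^ (2 - τ₀) ≤ |S p A|}.Finite :=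
          (Set.finite_Iic ⌊T⌋₊).subset fun p hp => hp.2.1
        exact_mod_cast Set.ncard_le_ncard hsub hfin2
      have h3 : ((⌊T⌋₊ : ℕ) : ℝ) ^ (1 - τ₀) ≤ T ^ ((1 - τ) + ε) := by
        have h4 : (1 : ℝ) ≤ ((⌊T⌋₊ : ℕ) : ℝ) := by exact_mod_cast (Nat.one_le_floor_iff _).2 hT
        calc ((⌊T⌋₊ : ℕ) : ℝ) ^ (1 - τ₀) ≤ ((⌊T⌋₊ : ℕ) : ℝ) ^ ((1 - τ) + ε) :=
              Real.rpow_le_rpow_of_exponent_le h4 (by linarith)
          _ ≤ T ^ ((1 - τ) + ε) :=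
              Real.rpow_le_rpow (Nat.cast_nonneg _) (Nat.floor_le hT0.le) (by linarith)
      have h5 : (0 : ℝ) ≤ Q₀ := Nat.cast_nonneg _
      nlinarith
    · have h1 : (({p | p ∈ Bad δ τ 𝒜 ∧ (p : ℝ) ≤ T}.ncard : ℕ) : ℝ) ≤ Q₀ := by
        have hsub : {p | p ∈ Bad δ τ 𝒜 ∧ (p : ℝ) ≤ T} ⊆ ((Finset.range Q₀ : Finset ℕ) : Set ℕ) := by
          rintro p ⟨-, hpT⟩
          rw [Finset.mem_coe, Finset.mem_range]
          exact lt_of_le_of_lt (Nat.le_floor hpT) h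
        have h2 := Set.ncard_le_ncard hsub (Finset.finite_toSet _)
        rw [Set.ncard_coe_finset, Finset.card_range] at h2
        exact_mod_cast h2
      have h5 : (0 : ℝ) ≤ Q₀ := Nat.cast_nonneg _
      nlinarith
  have main : ∀ (a : ℝ) (f : ℕ → ℝ → ℝ) (ρ θ : ℝ) (𝒜 : ℕ → Set ℕ), Starshaped a f → 0 ≤ ρ → ExpLe a f ρ → θ < 1 →
      ∃ E : Set ℝ, dimH E ≤ ENNReal.ofReal ((1 - τ + ρ) / (1 - θ)) ∧
        ∀ α : ℝ, a < α → α ∉ E → ∀ (i : ℕ) (c : ℝ), ∃ n₀ : ℕ, ∀ n : ℕ, n₀ ≤ n → ∀ p : ℕ, p.Prime →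
          |(p : ℝ) - f n α| ≤ c * (f n α) ^ θ → (p : ℝ) ^ δ ≤ (seg (𝒜 i) p).card →
            ∀ A ⊆ seg (𝒜 i) p, ((seg (𝒜 i) p).card : ℝ) ^ (1 - τ) ≤ A.card →
              |S p A| < (A.card : ℝ) ^ (2 - τ) := by
    intro a f ρ θ 𝒜 hf hρ hE hθ
    have key := fun i : ℕ => Pool.Agent.R482.ST.windows (Bad δ τ (𝒜 i)) (fun p : ℕ => (p : ℝ)) hf hρ hE
      (s := 1 - τ) (θ := θ) (by linarith) hθ (hcount (𝒜 i))
    choose E hE1 hE2 using key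
    refine ⟨⋃ i, E i, ?_, ?_⟩
    · rw [dimH_iUnion]
      exact iSup_le hE1
    · intro α hα hαE i c
      rw [Set.mem_iUnion] at hαE
      push Not at hαE
      obtain ⟨n₀, hn⟩ := hE2 i α hα (hαE i) c
      refine ⟨n₀, fun n hn1 p hp hw hseg A hA hAc => ?_⟩
      by_contra hcon
      push Not at hcon
      exact absurd (hn n hn1 p ⟨hp, hseg, A, hA, hAc, hcon⟩) (not_lt.2 hw)
  refine ⟨τ, ⟨hτ0, hτ1⟩, main, fun a f 𝒜 hf hE => ?_, Pool.Agent.R482.ST.ex_mul, Pool.Agent.R482.ST.ex_pow,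
    Pool.Agent.R482.ST.ex_orbit⟩
  -- `θ` runs over the numbers `τ - 1 / (m + 1)`
  have key := fun m : ℕ => main a f 0 (τ - 1 / ((m : ℝ) + 1)) 𝒜 hf le_rfl hE (by
    have : 0 < 1 / ((m : ℝ) + 1) := by positivity
    linarith)
  choose E hE1 hE2 using key
  have hnull : ∀ m, MeasureTheory.volume (E m) = 0 := by
    intro m
    have h1 : dimH (E m) < 1 := by
      refine lt_of_le_of_lt (hE1 m) ?_
      rw [← ENNReal.ofReal_one]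
      rw [ENNReal.ofReal_lt_ofReal_iff one_pos]
      have : 0 < 1 / ((m : ℝ) + 1) := by positivity
      rw [div_lt_one (by linarith)]
      linarith
    rw [← MeasureTheory.hausdorffMeasure_real]
    have h3 := hausdorffMeasure_of_dimH_lt (s := E m) (d := 1) (by exact_mod_cast h1)
    exact_mod_cast h3
  refine ⟨⋃ m, E m, ?_, ?_⟩
  · rw [MeasureTheory.measure_iUnion_null_iff]
    exact hnull
  · intro α hα hαE i c θ hθ
    rw [Set.mem_iUnion] at hαE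
    push Not at hαE
    obtain ⟨m, hm⟩ := exists_nat_one_div_lt (show (0 : ℝ) < τ - θ by linarith)
    obtain ⟨l₀, hl⟩ := hE2 m α hα (hαE m) i |c|
    have hpos : ∀ l, 0 < f l α := fun l => (hf.2 l α α hα le_rfl).1
    have hs := hE α hα 1 one_pos
    have ht := hs.tendsto_atTop_zero
    have hev : ∀ᶠ l in Filter.atTop, (f l α) ^ (-(1 : ℝ)) < 1 := ht.eventually (gt_mem_nhds one_pos)
    obtain ⟨l₁, hl₁⟩ := Filter.eventually_atTop.1 hev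
    refine ⟨max l₀ l₁, fun l hl' p hp hw => ?_⟩
    refine hl l (le_of_max_le_left hl') p hp ?_
    have h1 : 1 ≤ f l α := by
      have h2 := hl₁ l (le_of_max_le_right hl')
      rw [Real.rpow_neg_one] at h2
      by_contra h3
      push Not at h3
      exact absurd h2 (not_lt.2 ((one_le_inv₀ (hpos l)).2 h3.le))
    have h2 : (f l α) ^ θ ≤ (f l α) ^ (τ - 1 / ((m : ℝ) + 1)) :=
      Real.rpow_le_rpow_of_exponent_le h1 (by linarith)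
    calc |(p : ℝ) - f l α| ≤ c * (f l α) ^ θ := hw
      _ ≤ |c| * (f l α) ^ θ := mul_le_mul_of_nonneg_right (le_abs_self c) (Real.rpow_nonneg (hpos l).le _)
      _ ≤ |c| * (f l α) ^ (τ - 1 / ((m : ℝ) + 1)) := mul_le_mul_of_nonneg_left h2 (abs_nonneg c)

end Pool.Agent.Results.MP_cb27ba_nt.PrimesInWindows
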